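import Pool.Agent.L5helper25.Mf3

/-!
# Rational connectedness for the images of fibrations in rational curves over towers of coverings

Let `V ⇢ B` be a fibration in rational curves (a conic bundle, with or without a section, for instance
`V = B × ℙ¹`), `dim B = m`, and let `V ⇢ W` be any dominant rational map of finite degree `r`; it need not
be related to the fibration, and it need not be a quotient by a group. Then `W` is uniruled, so it has no
pluricanonical forms. The question is if `W` is rationally connected; the top degree `m + 1 = dim W` of the
tensor differentials says nothing about this. We give an answer if `B` is the first variety of a tower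
`B = B 0 ⇢ B 1 ⇢ ... ⇢ B k` of generically finite rational maps, where `B k` is any rationally
connected variety of dimension `m` and every `B i`, `i < k`, has many canonical forms relative to
`B (i + 1)`: if the smooth projective models of `W` have no nonzero holomorphic tensor differential of
degree `m = dim W - 1`, that is, `H⁰ (W, (Ω¹) ^ ⊗ m) = 0`, or only no nonzero holomorphic form of degree
`m`, then `W` is rationally connected. So Mumford's problem has a positive answer for these `W`, in every
dimension, and one degree of the tensor differentials suffices.

That `B i` has many canonical forms relative to `B (i + 1)` means (`HasForms`) that `B (i + 1)` is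
generically finite over a product of varieties `X l` (its function field is the compositum of the function
fields of the `X l`; for instance one variety), and there are rational canonical forms `ω j` on `B i` such
that

* `(∏ s l) * ω j` is a regular canonical form on the smooth projective models of `B i` for all `s l` in
  sets `H l` of rational functions on `X l`, which separate `r i` general points of `X l`,
* for every covering `B i ⇢ B' ⇢ B (i + 1)`, where `B' ⇢ B (i + 1)` is not birational, some `ω j` has a
  nonzero trace on `B'` (if there is no covering strictly between `B i` and `B (i + 1)` this only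
  means that some `ω j` is not zero).

Here `r 0 = r` is the degree of `V ⇢ W` and `r (i + 1) = r i / deg (B i / B (i + 1))`. For example `B i` can
be a smooth hypersurface of degree `d ≥ r i + m + 1` in `P ^ (m + 1)` with its projection to `P ^ m` from
a general point, or a covering of any variety, for instance of a Fano variety or of a product, whose
branch divisors are sufficiently large.

The images `W` of towers of coverings themselves, of dimension `m`, with forms of degree `m = dim W`, are
the subject of `CoveringTowers`, and the images of families of curves, with forms of degree `dim W`, over
a rationally connected base the one of `FamiliesOfCurves`. The theorem does not follow from `CoveringTowers`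
and the maximal rationally connected fibration `W ⇢ R`, since `B ⇢ R` can have fibres of positive
dimension.

Proof. Let `V i` be the image of `V` in `W × B i`. We prove by induction that `V i ⇢ B i` has connected
fibres. The traces of the pull-backs to `V i` of the forms `(∏ s l) * ω j` on `B i` are holomorphic forms of
degree `m` on `W`, so they vanish. For all vector fields on `W` this is a relation between the at most
`r i` points of `V i` over a generic point of `W`, multilinear in the values of the `s l`. The points of
`X l` are separated, so the traces of the (pull-backs of the) `ω j` on `V (i + 1)` vanish. Let `B'` be the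
covering of `B (i + 1)` given by the algebraic closure of `ℂ(B (i + 1))` in `ℂ(V (i + 1))`. It is between
`B i` and `B (i + 1)`, because `V i ⇢ B i` has connected fibres. The vector fields of `B'` can be extended
to `V (i + 1)`, and the trace from `V i` to `V (i + 1)` of a function on `B i` is a multiple of its trace
on `B'`. So the traces of the `ω j` on `B'` vanish, and `B' = B (i + 1)`. This also gives the bound `r i` for
the degree of `V i` over `W`. So `V k` is a fibration over the rationally connected variety `B k`, and
its geometric generic fibre is a rational curve by Lüroth's theorem. Its generic fibre is a conic over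
`ℂ(B k)`, `y ² = a x ² + b`: the traces of the vector fields of `ℙ¹` over a Galois extension give two
independent vector fields over `ℂ(B k)`, and their quotient `x` and its derivative `y` generate the
field. Two points of this conic bundle are joined by a rational curve, by the theorem of Tsen over a
rational curve in `B k` through the images of the two points. So `V k` and `W` are rationally connected.

The language of function fields is used. `B`, `K` and `L` are the function fields of `B`, `V` and `W`, the
prime divisors of the smooth projective models are the divisorial places, and `W` is rationally
connected if any two generic points `σ`, `τ` of `W`, with coordinates in any algebraically closed field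
`Ω`, are joined by a rational curve: there is a point `γ` of `W` with coordinates in `Ω(t)`, which is
defined for `t = 0` and `t = 1` and has the values `σ` and `τ` there.
-/

set_option autoImplicit false
set_option linter.overlappingInstances false
set_option maxHeartbeats 4000000
set_option synthInstance.maxHeartbeats 400000

open FF Module Pool.Agent Pool.Agent.W602.GT
open Pool.Agent.R882.LT (TraceNe)

namespace Pool.Agent.Results.MP_4329d7_ag.ConicBundlesOverTowers

/-- The rational function `f` of one variable is defined at `a` and has the value `c` there. -/
def HasValue {Ω : Type} [Field Ω] (f : RatFunc Ω) (a c : Ω) : Prop :=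
  ∃ p q : Polynomial Ω, q.eval a ≠ 0 ∧
    f * algebraMap (Polynomial Ω) (RatFunc Ω) q = algebraMap (Polynomial Ω) (RatFunc Ω) p ∧
    p.eval a = c * q.eval a

/-- The variety with the function field `L` is rationally connected: any two generic points `σ` and `τ`,
with coordinates in an algebraically closed field `Ω`, are joined by a rational curve `γ`. -/
def RationallyConnected (L : Type) [Field L] [Algebra ℂ L] : Prop :=
  ∀ (Ω : Type) [Field Ω] [Algebra ℂ Ω] [IsAlgClosed Ω] (σ τ : L →ₐ[ℂ] Ω),
    ∃ γ : L →ₐ[ℂ] RatFunc Ω, ∀ f : L, HasValue (γ f) 0 (σ f) ∧ HasValue (γ f) 1 (τ f)

/-- **The functions in `H` separate `r` points.** `E` is the function field of a variety; the embeddings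
`σ : E → Ω` are its generic points with coordinates in the field `Ω`. At most `r` different such points
impose independent conditions on the functions `s ∈ H`: if `∑ c σ * σ s = 0` for all `s` then all the
coefficients `c σ` are zero. -/
def SeparatesPoints {E : Type} [Field E] [Algebra ℂ E] (H : Set E) (r : ℕ) : Prop :=
  ∀ (Ω : Type) [Field Ω] [Algebra ℂ Ω] [IsAlgClosed Ω] (A : Finset (E →ₐ[ℂ] Ω)), A.card ≤ r →
    ∀ c : (E →ₐ[ℂ] Ω) → Ω, (∀ s ∈ H, ∑ σ ∈ A, c σ * σ s = 0) → ∀ σ ∈ A, c σ = 0

/-- The variety of dimension `n` with the function field `K` has many canonical forms relative to
the variety `Y` with the function field `E`: `E` is the compositum of the function fields `F l` of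
varieties `X l`, `(∏ s l) * ω j` is a canonical form, regular at all prime divisors, for all `s l` in a
set `H l` of functions on `X l` which separates `r` points, and for every field `E < M ≤ K` some `ω j`
has a nonzero trace to `M`. -/
def HasForms (n : ℕ) {K : Type} [Field K] [Algebra ℂ K] (E : IntermediateField ℂ K) (r : ℕ) : Prop :=
  ∃ (k : ℕ) (F : Fin k → IntermediateField ℂ K) (H : ∀ l, Set (F l)) (J : Type)
    (ω : J → (Fin n → Derivation ℂ K K) → K),
    E = ⨆ l, F l ∧ (∀ l, SeparatesPoints (H l) r) ∧ (∀ j, IsPluri 1 (ω j)) ∧
    (∀ j (s : ∀ l, F l), (∀ l, s l ∈ H l) → ∀ P, Divisorial n P →
      RegAt P (fun D => (∏ l, (s l : K)) * ω j D)) ∧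
    ∀ M : IntermediateField ℂ K, E < M → ∃ j, TraceNe (ω j) M

/-- `K` is the function field of the first variety of a tower of coverings, of dimension `n`, with
separation of `r` points, over a rationally connected variety. -/
inductive Tower (n : ℕ) : ∀ (K : Type) [Field K] [Algebra ℂ K], ℕ → Prop
  | base {K : Type} [Field K] [Algebra ℂ K] {r : ℕ} (h : RationallyConnected K) : Tower n K r
  | cover {K : Type} [Field K] [Algebra ℂ K] {r : ℕ} (E : IntermediateField ℂ K)
      (fin : FiniteDimensional E K) (forms : HasForms n E r)
      (below : Tower n E (r / finrank E K)) : Tower n K r

/-- The fibres of `V ⇢ B`, with the function fields `K` and `B`, are rational curves: the compositum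
`Z` of `K` and of the algebraic closure `Λ` of `B` is a field `Λ(s)` of rational functions of one
variable. -/
def RationalFibres (B K : Type) [Field B] [Field K] [Algebra B K] : Prop :=
  ∃ (Λ Z : Type) (_ : Field Λ) (_ : Field Z) (_ : Algebra B Λ) (_ : Algebra Λ Z)
    (_ : Algebra K Z) (_ : IsAlgClosed Λ) (_ : Algebra.IsAlgebraic B Λ),
    (∀ b : B, algebraMap Λ Z (algebraMap B Λ b) = algebraMap K Z (algebraMap B K b)) ∧
    IntermediateField.adjoin Λ (Set.range (algebraMap K Z)) = ⊤ ∧
    ∃ s : Z, Transcendental Λ s ∧ IntermediateField.adjoin Λ {s} = ⊤

/-- `H⁰ (W, (Ω¹) ^ ⊗ m) = 0` for the smooth projective varieties `W` of dimension `n` with the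
function field `L`: all `L`-multilinear functions of `m` rational vector fields whose values on the
vector fields which are regular at `P` are regular at `P`, for all prime divisors `P`, are zero. -/
def NoTensors (L : Type) [Field L] [Algebra ℂ L] (n m : ℕ) : Prop :=
  ∀ T : MultilinearMap L (fun _ : Fin m => Derivation ℂ L L) L,
    (∀ P : Place ℂ L, Divisorial n P → ∀ D : Fin m → Derivation ℂ L L, (∀ j, DerReg P (D j)) →
      P.Reg (T D)) → T = 0

/-- `H⁰ (W, Ω ^ m) = 0` for the smooth projective varieties `W` of dimension `n` with the function
field `L`. -/
def NoForms (L : Type) [Field L] [Algebra ℂ L] (n m : ℕ) : Prop :=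
  ∀ η : AlternatingMap L (Derivation ℂ L L) L (Fin m),
    (∀ P : Place ℂ L, Divisorial n P → ∀ D : Fin m → Derivation ℂ L L, (∀ j, DerReg P (D j)) →
      P.Reg (η D)) → η = 0

theorem Tower.ntower {n : ℕ} {K : Type} [i1 : Field K] [i2 : Algebra ℂ K] {r : ℕ}
    (h : Tower n K r) : L5helper25.NTower n (fun K _ _ => L5helper25.Con.RCf K) K r := by
  induction h with
  | base h => exact .base h
  | cover E fin forms below ih => exact .cover E fin forms ih

theorem NoTensors.noForms {L : Type} [Field L] [Algebra ℂ L] {n m : ℕ} (h : NoTensors L n m) :
    NoForms L n m := by
  intro η hη
  have h1 := h η.toMultilinearMap hη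
  ext D
  exact DFunLike.congr_fun h1 D

/-- **Images of fibrations in rational curves over towers.** Let `B` and `K` be the function fields of
the varieties `B` and `V`, of dimension `m` and `m + 1`, where `B` is the first variety of a tower of
coverings over a rationally connected variety, and `V ⇢ B` has connected fibres, which are rational
curves. Let `V ⇢ W` be a dominant rational map of finite degree, and `L` the function field of `W`, and
let the tower separate `[K : L]` points. If `W` has no nonzero holomorphic tensor differential of
degree `m`, or only no nonzero holomorphic form of degree `m`, then `W` is rationally connected. -/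
theorem result {m : ℕ} {B : Type} [Field B] [Algebra ℂ B] [Algebra.EssFiniteType ℂ B]
    (hB : Algebra.trdeg ℂ B = m) {K : Type} [Field K] [Algebra ℂ K] [Algebra.EssFiniteType ℂ K]
    [Algebra B K] [IsScalarTower ℂ B K] (hK : Algebra.trdeg ℂ K = (m + 1 : ℕ))
    (hcl : ∀ z : K, IsAlgebraic B z → ∃ b : B, algebraMap B K b = z)
    (hfib : RationalFibres B K) (L : Type) [Field L] [Algebra ℂ L] [Algebra L K]
    [IsScalarTower ℂ L K] [FiniteDimensional L K] (h : Tower m B (finrank L K)) :
    (NoTensors L (m + 1) m → RationallyConnected L) ∧
    (NoForms L (m + 1) m → RationallyConnected L) := by
  have key : NoForms L (m + 1) m → RationallyConnected L := fun hno =>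
    L5helper25.Mf.mtower h.ntower inferInstance hB K hK hcl hfib L le_rfl hno
  exact ⟨fun h => key h.noForms, key⟩

end Pool.Agent.Results.MP_4329d7_ag.ConicBundlesOverTowers
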