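import Pool.Agent.L5helper25.TowN

/-!
# Tensor differentials and rational connectedness for the images of towers of coverings

A tower (`Tower`) is a sequence `V 0 ⇢ V 1 ⇢ ... ⇢ V k` of generically finite rational maps between
varieties of dimension `n`, where `V k` is any rationally connected variety (or any unirational variety)
and every `V i`, `i < k`, has many canonical forms relative to `V (i + 1)`. This means (`HasForms`) that
`V (i + 1)` is generically finite over a product of varieties `X l` (for instance over one variety, or
over a product of curves; its function field is the compositum of the function fields of the `X l`), and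
there are rational canonical forms `ω j` on `V i` such that

* `(∏ s l) * ω j` is a regular canonical form on the smooth projective models of `V i` for all `s l` in
  sets `H l` of rational functions on `X l`, which separate `r i` general points of `X l`,
* for every covering `V i ⇢ V' ⇢ V (i + 1)`, where `V' ⇢ V (i + 1)` is not birational, some `ω j` has a
  nonzero trace on `V'` (if there is no covering strictly between `V i` and `V (i + 1)` this only
  means that some `ω j` is not zero).

Here `r 0 = r` is a given number and `r (i + 1) = r i / deg (V i / V (i + 1))`. For example `V i` can be a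
smooth hypersurface of degree `d ≥ r i + n + 1` in `P ^ (n + 1)` with its projection to `P ^ n` from a
general point (with the form `ω = dx / f_y`, and all polynomials of degree at most `d - 2 - n` in `x`),
or a covering of any variety, for instance of a product of curves or of Fano varieties, whose branch
divisors are sufficiently large. No maps to tori, and no monomial coordinates are needed.

Let `V 0 ⇢ W` be any dominant rational map of finite degree `d`; nothing is assumed about the map (it need
not be a quotient by a group and has no relation to the tower) or about `W`.

(1) Let `r = d`. If the smooth projective models of `W` have no nonzero holomorphic tensor differential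
of degree `n = dim W`, that is, `H⁰ (W, (Ω¹) ^ ⊗ n) = 0`, then `W` is rationally connected, and it is
unirational if `V k` is. In fact `p_g(W) = 0` is enough.

(2) Let `r = 2 d`. Then `W` is of general type or rationally connected (or unirational, if `V k` is).

So Mumford's problem has a positive answer for all these `W`, in every dimension, and already the tensor
differentials of degree `n` suffice.

Proof: let `V i ⇢ W` be a rational map of degree at most `r i`, and suppose that `p_g(W) = 0`. Then the
traces of all forms `(∏ s l) * ω j` on `W` vanish. This is a relation between the points of `V i` over a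
generic point of `W`, multilinear in the values of the `s l`. At most `r i` points of `X l` occur, and
they are separated, so the traces of the `ω j` on the image `V'` of `V i` in `W × V (i + 1)` vanish.
Hence `V' ⇢ V (i + 1)` is birational, and the map factors through `V i ⇢ V (i + 1)`. Similarly for (2),
with two generic points of `W` which have the same image under the canonical map. So the map
`V 0 ⇢ W` factors through `V k`. A canonical form is a tensor differential of degree `n`.

The language of function fields is used. `K` and `L` are the function fields of `V 0` and `W`, the prime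
divisors of the smooth projective models are the divisorial places, and `W` is rationally connected if
any two generic points `σ`, `τ` of `W`, with coordinates in any algebraically closed field `Ω`, are
joined by a rational curve: there is a point `γ` of `W` with coordinates in `Ω(t)`, which is defined for
`t = 0` and `t = 1` and has the values `σ` and `τ` there.
-/

set_option autoImplicit false
set_option linter.overlappingInstances false
set_option maxHeartbeats 4000000
set_option synthInstance.maxHeartbeats 400000

open FF Module Pool.Agent Pool.Agent.W602.GT
open Pool.Agent.R882.LT (TraceNe)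
open Pool.Agent.W619.TW (IsUnirational)

namespace Pool.Agent.Results.MP_4329d7_ag.CoveringTowers

/-- The rational function `f` of one variable is defined at `a` and has the value `c` there. -/
def HasValue {Ω : Type} [Field Ω] (f : RatFunc Ω) (a c : Ω) : Prop :=
  ∃ p q : Polynomial Ω, q.eval a ≠ 0 ∧
    f * algebraMap (Polynomial Ω) (RatFunc Ω) q = algebraMap (Polynomial Ω) (RatFunc Ω) p ∧
    p.eval a = c * q.eval a

/-- The variety with the function field `L` is rationally connected: any two generic points `σ` and `τ`,
with coordinates in an algebraically closed field `Ω`, are joined by a rational curve `γ`. -/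
def RationallyConnected (L : Type) [Field L] [Algebra ℂ L] : Prop :=
  ∀ (Ω : Type) [Field Ω] [Algebra ℂ Ω] [IsAlgClosed Ω] (σ τ : L →ₐ[ℂ] Ω),
    ∃ γ : L →ₐ[ℂ] RatFunc Ω, ∀ f : L, HasValue (γ f) 0 (σ f) ∧ HasValue (γ f) 1 (τ f)

/-- **The functions in `H` separate `r` points.** `E` is the function field of a variety; the embeddings
`σ : E → Ω` are its generic points with coordinates in the field `Ω`. At most `r` different such points
impose independent conditions on the functions `s ∈ H`: if `∑ c σ * σ s = 0` for all `s` then all the
coefficients `c σ` are zero. -/
def SeparatesPoints {E : Type} [Field E] [Algebra ℂ E] (H : Set E) (r : ℕ) : Prop :=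
  ∀ (Ω : Type) [Field Ω] [Algebra ℂ Ω] [IsAlgClosed Ω] (A : Finset (E →ₐ[ℂ] Ω)), A.card ≤ r →
    ∀ c : (E →ₐ[ℂ] Ω) → Ω, (∀ s ∈ H, ∑ σ ∈ A, c σ * σ s = 0) → ∀ σ ∈ A, c σ = 0

/-- The variety `V` of dimension `n` with the function field `K` has many canonical forms relative to
the variety `Y` with the function field `E`: `E` is the compositum of the function fields `F l` of
varieties `X l`, `(∏ s l) * ω j` is a canonical form, regular at all prime divisors, for all `s l` in a
set `H l` of functions on `X l` which separates `r` points, and for every field `E < M ≤ K` some `ω j`
has a nonzero trace to `M`. -/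
def HasForms (n : ℕ) {K : Type} [Field K] [Algebra ℂ K] (E : IntermediateField ℂ K) (r : ℕ) : Prop :=
  ∃ (k : ℕ) (F : Fin k → IntermediateField ℂ K) (H : ∀ l, Set (F l)) (J : Type)
    (ω : J → (Fin n → Derivation ℂ K K) → K),
    E = ⨆ l, F l ∧ (∀ l, SeparatesPoints (H l) r) ∧ (∀ j, IsPluri 1 (ω j)) ∧
    (∀ j (s : ∀ l, F l), (∀ l, s l ∈ H l) → ∀ P, Divisorial n P →
      RegAt P (fun D => (∏ l, (s l : K)) * ω j D)) ∧
    ∀ M : IntermediateField ℂ K, E < M → ∃ j, TraceNe (ω j) M

/-- `K` is the function field of the first variety of a tower of coverings, with separation of `r`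
points, over a variety with the property `Base`. -/
inductive Tower (n : ℕ) (Base : ∀ (K : Type) [Field K] [Algebra ℂ K], Prop) :
    ∀ (K : Type) [Field K] [Algebra ℂ K], ℕ → Prop
  | base {K : Type} [Field K] [Algebra ℂ K] {r : ℕ} (h : Base K) : Tower n Base K r
  | cover {K : Type} [Field K] [Algebra ℂ K] {r : ℕ} (E : IntermediateField ℂ K)
      (fin : FiniteDimensional E K) (forms : HasForms n E r)
      (below : Tower n Base E (r / finrank E K)) : Tower n Base K r

/-- `H⁰ (W, (Ω¹) ^ ⊗ m) = 0` for the smooth projective varieties `W` of dimension `n` with the
function field `L`: all `L`-multilinear functions of `m` rational vector fields whose values on the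
vector fields which are regular at `P` are regular at `P`, for all prime divisors `P`, are zero. -/
def NoTensors (L : Type) [Field L] [Algebra ℂ L] (n m : ℕ) : Prop :=
  ∀ T : MultilinearMap L (fun _ : Fin m => Derivation ℂ L L) L,
    (∀ P : Place ℂ L, Divisorial n P → ∀ D : Fin m → Derivation ℂ L L, (∀ j, DerReg P (D j)) →
      P.Reg (T D)) → T = 0

/-- The geometric genus of the variety with the function field `L` is zero. -/
def GenusZero (L : Type) [Field L] [Algebra ℂ L] (n : ℕ) : Prop :=
  ∀ ω : (Fin n → Derivation ℂ L L) → L, IsPluri 1 ω →
    (∀ P : Place ℂ L, Divisorial n P → RegAt P ω) → ∀ D, ω D = 0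

theorem Tower.ntower {n : ℕ} {Base : ∀ (K : Type) [Field K] [Algebra ℂ K], Prop}
    {K : Type} [i1 : Field K] [i2 : Algebra ℂ K] {r : ℕ} (h : Tower n Base K r) :
    L5helper25.NTower n Base K r := by
  induction h with
  | base h => exact .base h
  | cover E fin forms below ih => exact .cover E fin forms ih

theorem descends_rc (K : Type) [Field K] [Algebra ℂ K] (L : Type) [Field L] [Algebra ℂ L]
    [Algebra L K] [IsScalarTower ℂ L K] [FiniteDimensional L K] (h : RationallyConnected K) :
    RationallyConnected L := by
  intro Ω _ _ _ σ τ
  have ext : ∀ ρ : L →ₐ[ℂ] Ω, ∃ ρ' : K →ₐ[ℂ] Ω, ∀ f, ρ' (algebraMap L K f) = ρ f := by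
    intro ρ
    let _ : Algebra L Ω := ρ.toRingHom.toAlgebra
    have _ : IsScalarTower ℂ L Ω := IsScalarTower.of_algebraMap_eq fun c => (ρ.commutes c).symm
    let ρ' : K →ₐ[L] Ω := IsAlgClosed.lift
    exact ⟨ρ'.restrictScalars ℂ, fun f => ρ'.commutes f⟩
  obtain ⟨σ', hσ⟩ := ext σ
  obtain ⟨τ', hτ⟩ := ext τ
  obtain ⟨γ, hγ⟩ := h Ω σ' τ'
  refine ⟨γ.comp (IsScalarTower.toAlgHom ℂ L K), fun f => ?_⟩
  have h1 := hγ (algebraMap L K f)
  rw [hσ, hτ] at h1
  exact h1

theorem descends_unirational (n : ℕ) (K : Type) [Field K] [Algebra ℂ K] (L : Type) [Field L]
    [Algebra ℂ L] [Algebra L K] [IsScalarTower ℂ L K] [FiniteDimensional L K]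
    (h : IsUnirational ℂ K n) : IsUnirational ℂ L n := by
  obtain ⟨φ⟩ := h
  exact ⟨φ.comp (IsScalarTower.toAlgHom ℂ L K)⟩

/-- **Images of towers of coverings.** Let `K` be the function field of the first variety `V` of a tower,
of dimension `n`, over a rationally connected variety, let `V ⇢ W` be a dominant rational map of finite
degree, and `L` the function field of `W`.
(1) If the tower separates `[K : L]` points and `W` has no nonzero holomorphic tensor differential of
degree `n`, or only `p_g(W) = 0`, then `W` is rationally connected.
(2) If the tower separates `2 [K : L]` points then `W` is of general type or rationally connected.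
The same is true with unirational instead of rationally connected. -/
theorem result {n : ℕ} {K : Type} [Field K] [Algebra ℂ K] [Algebra.EssFiniteType ℂ K]
    (hK : Algebra.trdeg ℂ K = (n : ℕ)) (L : Type) [Field L] [Algebra ℂ L] [Algebra L K]
    [IsScalarTower ℂ L K] [FiniteDimensional L K] :
    (Tower n (fun K _ _ => RationallyConnected K) K (finrank L K) →
      (NoTensors L n n → RationallyConnected L) ∧ (GenusZero L n → RationallyConnected L)) ∧
    (Tower n (fun K _ _ => RationallyConnected K) K (2 * finrank L K) →
      GeneralType ℂ L n ∨ RationallyConnected L) ∧
    (Tower n (fun K _ _ => IsUnirational ℂ K n) K (finrank L K) →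
      (NoTensors L n n → IsUnirational ℂ L n) ∧ (GenusZero L n → IsUnirational ℂ L n)) ∧
    (Tower n (fun K _ _ => IsUnirational ℂ K n) K (2 * finrank L K) →
      GeneralType ℂ L n ∨ IsUnirational ℂ L n) := by
  have hL : Algebra.trdeg ℂ L = (n : ℕ) := Pool.Agent.Y184.NT.trdeg_below (K := K) hK
  refine ⟨fun h => ⟨fun h1 => ?_, fun h1 => ?_⟩, fun h => ?_,
    fun h => ⟨fun h1 => ?_, fun h1 => ?_⟩, fun h => ?_⟩
  · exact (L5helper25.ntower descends_rc h.ntower hK L).1 rfl
      (L5helper25.gz_of_noTensors hL h1)
  · exact (L5helper25.ntower descends_rc h.ntower hK L).1 rfl h1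
  · by_cases hg : GeneralType ℂ L n
    · exact Or.inl hg
    · exact Or.inr ((L5helper25.ntower descends_rc h.ntower hK L).2 rfl hg)
  · exact (L5helper25.ntower (descends_unirational n) h.ntower hK L).1 rfl
      (L5helper25.gz_of_noTensors hL h1)
  · exact (L5helper25.ntower (descends_unirational n) h.ntower hK L).1 rfl h1
  · by_cases hg : GeneralType ℂ L n
    · exact Or.inl hg
    · exact Or.inr ((L5helper25.ntower (descends_unirational n)
        h.ntower hK L).2 rfl hg)

end Pool.Agent.Results.MP_4329d7_ag.CoveringTowers
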