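import Pool.Agent.L5helper25.FamZ
import Pool.Agent.L5helper25.TowN

/-!
# Tensor differentials and rational connectedness for the images of families of curves

Let `V ⇢ B` be a family of curves (with connected fibres, of any genus, with any moduli), `dim B = m`. We
assume that `V` has many canonical forms: there are rational canonical forms `ω j` of `V`, whose
restrictions to the geometric generic fibre (a curve over the algebraic closure `Λ` of `ℂ(B)`) generate
the space of its regular differentials, and the `s * ω j` are regular canonical forms on the smooth
projective models of `V` for all `s` in a set `H` of rational functions on `B`, which separates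
sufficiently many general points of `B`. For example `B` can be a projective space, or any rationally
connected variety, and `V` a hypersurface in `B × ℙ²` of large bidegree, or a covering of any conic
bundle over `B` with a large branch divisor; in general the direct image of the dualizing sheaf of `V`
becomes generated at the generic point after a twist by an ample divisor on `B`.

Let `V ⇢ W` be any dominant rational map of finite degree to a variety `W`. It need not be related to the
fibration, it need not be the quotient by a group, and the fibres can be mapped to `W` with any degree.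
Suppose that `H` separates `[ℂ(V') : ℂ(W)]` points, where `V'` is the image of `V` in `W × B`. If the
smooth projective models of `W` have no nonzero holomorphic tensor differential of degree `dim W`, that
is, `H⁰(W, (Ω¹) ^ ⊗ (m + 1)) = 0`, or only `p_g(W) = 0`, then

1. `W` is uniruled (for every `B`),
2. `W` is rationally connected, if `B` is rationally connected.

So Mumford's problem has a positive answer for these `W`, in every dimension. Here `W` need not be
dominated by a product, by a covering of a rationally connected variety or by a fibration in Abelian
varieties; the fibration `V ⇢ B` may have no section, and the rational curves of `W` are not the images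
of the curves of the given family.

If `B` is the product of the varieties `X i` (or generically finite over it), `i < k`, then it is
sufficient that `H` is the set of the products `∏ s i`, `s i ∈ H i`, and that the set `H i` of functions
on `X i` separates `d i` points, `d i` being the degree over `W_i` of the image of `V` in `W_i × X i`,
where `W_i` is the image of `V` in `W × X 0 × ... × X (i - 1)`. This is the version which is stated here;
the function field `E` of `B` is the compositum of the function fields `F i` of the `X i`, and it is
algebraically closed in the one of `V`.

Proof. The traces of the `(∏ s i) * ω j` are canonical forms on `W`, so they vanish. This is a relation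
between the points of `V` over a generic point of `W`, multilinear in the values of the `s i`. At most
`d i` points of `X i` occur if the first `i` coordinates are fixed, and they are separated, so we can fix
all the coordinates, and the traces of all `ω j` on `V'` are zero. So the traces of all the regular
differentials of the geometric generic fibre of `V` on the one of `V'` are zero, and the latter is a
rational curve. So `V'` is ruled over a covering of `B`, and the generic fibre of `V' ⇢ B` is a conic
over the field `E = ℂ(B)`, which may have no rational point. This is shown as follows. The traces of the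
vector fields of `ℙ¹` over a Galois extension of `E` give two independent vector fields over `E`, and
their quotient `x` and its derivative `y` generate the field and satisfy a quadratic equation. Finally
two points of this conic bundle `y ² = a x ² + b` over a rationally connected base are joined by a
rational curve: take a rational curve `γ` in `B` through the images of the two points, and a rational
point of the conic over `ℂ(γ)`, which exists by the theorem of Tsen and can be moved to a point with the
two given values. This is the case of relative dimension one of the theorem of Graber, Harris and Starr;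
here everything is proved, for points with coordinates in any algebraically closed field.

The language of function fields is used. `K` and `L` are the function fields of `V` and `W`, the prime
divisors of the smooth projective models are the divisorial places, and `W` is rationally connected if
any two generic points `σ`, `τ` of `W`, with coordinates in any algebraically closed field `Ω`, are
joined by a rational curve: there is a point `γ` of `W` with coordinates in `Ω(t)`, which is defined for
`t = 0` and `t = 1` and has the values `σ` and `τ` there.
-/

set_option autoImplicit false
set_option linter.overlappingInstances false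
set_option maxHeartbeats 4000000
set_option synthInstance.maxHeartbeats 400000

open FF Module Pool.Agent Pool.Agent.W602.GT

namespace Pool.Agent.Results.MP_4329d7_ag.FamiliesOfCurves

/-- The rational function `f` of one variable is defined at `a` and has the value `c` there. -/
def HasValue {Ω : Type} [Field Ω] (f : RatFunc Ω) (a c : Ω) : Prop :=
  ∃ p q : Polynomial Ω, q.eval a ≠ 0 ∧
    f * algebraMap (Polynomial Ω) (RatFunc Ω) q = algebraMap (Polynomial Ω) (RatFunc Ω) p ∧
    p.eval a = c * q.eval a

/-- The variety with the function field `L` is rationally connected: any two generic points `σ` and `τ`,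
with coordinates in an algebraically closed field `Ω`, are joined by a rational curve `γ`. -/
def RationallyConnected (L : Type) [Field L] [Algebra ℂ L] : Prop :=
  ∀ (Ω : Type) [Field Ω] [Algebra ℂ Ω] [IsAlgClosed Ω] (σ τ : L →ₐ[ℂ] Ω),
    ∃ γ : L →ₐ[ℂ] RatFunc Ω, ∀ f : L, HasValue (γ f) 0 (σ f) ∧ HasValue (γ f) 1 (τ f)

/-- The variety with the function field `L`, of dimension `m + 1`, is uniruled: `L` embeds in the field
`M(t)` of a product of a line and a variety of dimension `m`, with the function field `M`. -/
def Uniruled (L : Type) [Field L] [Algebra ℂ L] (m : ℕ) : Prop :=
  ∃ (M : Type) (_ : Field M) (_ : Algebra ℂ M), Algebra.EssFiniteType ℂ M ∧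
    Algebra.trdeg ℂ M = m ∧ Nonempty (L →ₐ[ℂ] RatFunc M)

/-- `H⁰ (W, (Ω¹) ^ ⊗ m) = 0` for the smooth projective varieties `W` of dimension `n` with the
function field `L`: all `L`-multilinear functions of `m` rational vector fields whose values on the
vector fields which are regular at `P` are regular at `P`, for all prime divisors `P`, are zero. -/
def NoTensors (L : Type) [Field L] [Algebra ℂ L] (n m : ℕ) : Prop :=
  ∀ T : MultilinearMap L (fun _ : Fin m => Derivation ℂ L L) L,
    (∀ P : Place ℂ L, Divisorial n P → ∀ D : Fin m → Derivation ℂ L L, (∀ j, DerReg P (D j)) →
      P.Reg (T D)) → T = 0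

/-- The geometric genus of the variety with the function field `L` is zero. -/
def GenusZero (L : Type) [Field L] [Algebra ℂ L] (n : ℕ) : Prop :=
  ∀ ω : (Fin n → Derivation ℂ L L) → L, IsPluri 1 ω →
    (∀ P : Place ℂ L, Divisorial n P → RegAt P ω) → ∀ D, ω D = 0

/-- **The functions in `H` separate `r` points.** `E` is the function field of a variety; the embeddings
`σ : E → Ω` are its generic points with coordinates in the field `Ω`. At most `r` different such points
impose independent conditions on the functions `s ∈ H`: if `∑ c σ * σ s = 0` for all `s` then all the
coefficients `c σ` are zero. -/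
def SeparatesPoints {E : Type} [Field E] [Algebra ℂ E] (H : Set E) (r : ℕ) : Prop :=
  ∀ (Ω : Type) [Field Ω] [Algebra ℂ Ω] [IsAlgClosed Ω] (A : Finset (E →ₐ[ℂ] Ω)), A.card ≤ r →
    ∀ c : (E →ₐ[ℂ] Ω) → Ω, (∀ s ∈ H, ∑ σ ∈ A, c σ * σ s = 0) → ∀ σ ∈ A, c σ = 0

/-- **Regular differentials of a curve.** `Z` is the function field of a curve over the field `Λ`, and
`δ` a rational vector field, not zero. The rational differential `η` with `η(δ) = f` is `(f / δ s) ds`,
for any local parameter `s`. It has no poles. -/
def RegularDifferential {Λ Z : Type} [Field Λ] [Field Z] [Algebra Λ Z] (δ : Derivation Λ Z Z)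
    (f : Z) : Prop :=
  ∀ (w : Place Λ Z) (s : Z), w.ord s = 1 → w.Reg (f / δ s)

variable {K : Type} [Field K] [Algebra ℂ K] {k : ℕ}

/-- The function field of the image `W_i` of `V` in the product of `W` and the first `i` factors.
Here `K` and `L` are the function fields of `V` and `W`, and `F l` is the one of the `l`-th
factor. -/
noncomputable def Img (F : Fin k → IntermediateField ℂ K) (L : Type) [Field L] [Algebra L K]
    (i : ℕ) : IntermediateField L K :=
  IntermediateField.adjoin L {z | ∃ l : Fin k, l.val < i ∧ z ∈ F l}

/-- The degree over `W_i` of the image of `V` in the product of `W_i` and the `i`-th factor. -/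
noncomputable def deg (F : Fin k → IntermediateField ℂ K) (L : Type) [Field L] [Algebra L K]
    (i : Fin k) : ℕ :=
  finrank (Img F L i) (IntermediateField.adjoin (Img F L i) (F i : Set K))

theorem img_eq (F : Fin k → IntermediateField ℂ K) (L : Type) [Field L] [Algebra ℂ L]
    [Algebra L K] [IsScalarTower ℂ L K] [FiniteDimensional L K] (i : ℕ) :
    N145.PC.MF F L (N145.PC.Js k i) = Img F L i := by
  unfold N145.PC.MF N145.PC.MJ Img
  congr 1
  ext z
  simp only [Set.mem_iUnion, N145.PC.mem_Js, Set.mem_range, exists_prop]
  constructor
  · rintro ⟨l, hl, z, rfl⟩
    exact ⟨l, hl, z.2⟩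
  · rintro ⟨l, hl, hz⟩
    exact ⟨l, hl, ⟨z, hz⟩, rfl⟩

/-- **Mumford's problem for the images of families of curves.** Let `K` be the function field of `V` and
`E ⊆ K` the one of `B`, the compositum of the function fields `F i` of varieties `X i`, `i < k`; `E` is
algebraically closed in `K`, the dimension of `B` is `m` and the one of `V` is `m + 1`. Let `ω j` be
rational canonical forms on `V`, and `H i` sets of rational functions on `X i` such that
`(∏ s i) * ω j` is a canonical form, regular at all prime divisors of the models of `V`, for all
`s i ∈ H i` and all `j`. Let `Λ` be an algebraic closure of `E` and `Z` the function field of the geometric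
generic fibre, a curve over `Λ` (the compositum of `K` and `Λ`). Let `D` be a rational frame of the tangent
bundle of `V` which is adapted to the fibration: it preserves `E`, and the last vector field is tangent to
the fibres; let `δ` be the vector field on the geometric generic fibre defined by the last one. The
`ω j` generate the regular differentials of the geometric generic fibre: the restriction of `ω j` to the
fibre, evaluated at `δ`, is `ω j D`, up to a factor in `E` which does not depend on `j`.
Let `L ⊆ K` be the function field of a variety `W` such that the extension is finite, and for all `i < k`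
let the set `H i` separate `d i` points, where `d i` is the degree over `W_i` of the image of `V` in the
product of `W_i` and `X i`. Suppose that `W` has no nonzero holomorphic tensor differential of degree
`m + 1 = dim W`, or only `p_g(W) = 0`. Then `W` is uniruled, and if `B` is rationally connected then
`W` is rationally connected. -/
theorem result [Algebra.EssFiniteType ℂ K]
    (F : Fin k → IntermediateField ℂ K)
    (E : IntermediateField ℂ K) (hE : E = ⨆ i, F i) (hcl : ∀ z : K, IsAlgebraic E z → z ∈ E)
    (m : ℕ) (hB : Algebra.trdeg ℂ E = m) (hK : Algebra.trdeg ℂ K = (m + 1 : ℕ))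
    (H : ∀ i, Set (F i)) (J : Type)
    (ω : J → (Fin (m + 1) → Derivation ℂ K K) → K) (hω : ∀ j, IsPluri 1 (ω j))
    (hωH : ∀ (j : J) (s : ∀ i, F i), (∀ i, s i ∈ H i) → ∀ P, Divisorial (m + 1) P →
      RegAt P (fun D => (∏ i, (s i : K)) * ω j D))
    (Λ Z : Type) [Field Λ] [Field Z] [Algebra E Λ] [Algebra Λ Z] [Algebra K Z]
    [IsScalarTower E Λ Z] [Algebra ℂ Λ] [Algebra ℂ Z] [IsScalarTower ℂ Λ Z] [IsScalarTower ℂ K Z]
    [IsScalarTower ℂ E Λ] [Algebra.IsAlgebraic E Λ] [IsAlgClosed Λ]
    (hZ : IntermediateField.adjoin Λ (Set.range (algebraMap K Z)) = ⊤)
    (D : Fin (m + 1) → Derivation ℂ K K) (hD : LinearIndependent K D)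
    (hDE : ∀ i, ∀ z ∈ E, D i z ∈ E) (hDl : ∀ z ∈ E, D (Fin.last m) z = 0)
    (δ : Derivation Λ Z Z) (hδ : ∀ z : K, δ (algebraMap K Z z) = algebraMap K Z (D (Fin.last m) z))
    (hgen : ∀ f : Z, RegularDifferential δ f →
      f ∈ Submodule.span Λ (Set.range fun j => algebraMap K Z (ω j D)))
    (L : Type) [Field L] [Algebra ℂ L] [Algebra L K] [IsScalarTower ℂ L K] [FiniteDimensional L K]
    (hH : ∀ i, SeparatesPoints (H i) (deg F L i)) :
    (NoTensors L (m + 1) (m + 1) → Uniruled L m ∧
      (RationallyConnected E → RationallyConnected L)) ∧
    (GenusZero L (m + 1) → Uniruled L m ∧
      (RationallyConnected E → RationallyConnected L)) := by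
  have hL : Algebra.trdeg ℂ L = (m + 1 : ℕ) := Pool.Agent.Y184.NT.trdeg_below (K := K) hK
  have hLK : Algebra.trdeg E K = (1 : ℕ) := Y174.trdeg_LK (r := 1) hB hK
  have hΛ0 : CharZero Λ := charZero_of_injective_algebraMap (algebraMap ℂ Λ).injective
  have htrF : Algebra.trdeg Λ Z = (1 : ℕ) := Y174.trdeg_F (L := E) (K := K) hLK hZ
  have hessF : Algebra.EssFiniteType Λ Z := Y174.ess_F (k := ℂ) (K := K) inferInstance hZ
  have hFF : IsFF Λ Z := ⟨hessF, by rw [htrF]; simp⟩
  have hδ0 : δ ≠ 0 := by
    intro h
    refine hD.ne_zero (Fin.last m) ?_
    ext z
    have h3 := hδ z
    rw [h] at h3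
    exact (_root_.map_eq_zero (algebraMap K Z)).1 h3.symm
  have hspan : ∀ f ∈ N145.PL.HL δ (∅ : Set (Place Λ Z)),
      f ∈ Submodule.span Λ (Set.range fun j => algebraMap K Z (ω j D)) := by
    intro f hf
    refine hgen f fun w s hs => ?_
    have h3 := W603.LV.der_pi_ne_zero hδ0 w hs
    have h4 := W603.LV.vo_eq w hs hδ0
    rcases hf w with h5 | h5
    · rw [h5, zero_div]
      exact w.reg_zero
    by_cases hf0 : f = 0
    · rw [hf0, zero_div]
      exact w.reg_zero
    have h6 : w.ord (f / δ s) = w.ord f - W603.LV.vo w δ := by
      rw [w.ord_div hf0 h3, h4]
    have h7 : f / δ s ≠ 0 := div_ne_zero hf0 h3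
    refine (w.reg_iff h7).2 ?_
    rw [h6]
    rw [N273.SX.bd_empty] at h5
    linarith
  have key : GenusZero L (m + 1) → Uniruled L m ∧
      (RationallyConnected E → RationallyConnected L) := by
    intro hgz
    obtain ⟨⟨M, i1, i2, h1, h2, h3⟩, h4⟩ := L5helper25.fam_gz (F := F) (E := E) (Λ := Λ) (Z := Z)
      (L := L) (H := H) hK hE hB hcl (g := fun i => deg F L i + 1)
      (fun Ω _ _ _ i A hA c hc => hH i Ω A (by omega) c hc)
      (fun i => by
        rw [img_eq]
        exact Nat.lt_succ_self _) hω hωH hZ hD hDE hDl hδ hspan hgz
    refine ⟨⟨M, i1, i2, h1, ?_, h3⟩, h4⟩
    have h5 : Algebra.trdeg ℂ M + 1 = (m : Cardinal) + 1 := by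
      rw [h2]
      push_cast
      rfl
    exact Cardinal.add_one_inj.1 h5
  exact ⟨fun h => key (L5helper25.gz_of_noTensors hL h), key⟩

end Pool.Agent.Results.MP_4329d7_ag.FamiliesOfCurves
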