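import Pool.Agent.L5helper25.GC.PairQ
import Pool.Agent.W619.TW.MDefs

/-!
MP_4329d7_ag, Q1: varieties of any dimension with multi-valued maps to very general complete
intersections, and covers of such varieties by fibre spaces with rationally connected fibres.

`U` is a generic pair (`Pair k ℂ`, `Pool/Agent/N95/LQ/Def.lean`) without boundary: the intersection of a
closed subset `V` of a projective space, defined over the algebraic closure of the subfield `k` in `ℂ`
and of dimension at most `m`, and of hypersurfaces `F a = 0` of degree `d a`, where the ratios of the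
coefficients of the `F a` are algebraically independent over `k`. For a countable field `k` these are
the intersections of `V` with very general hypersurfaces. `size` is the sum of the numbers `d a + 1`.

`W` is any variety, `L` its function field. A rational map from `W` to `U` with at most `r` values is a
point `x` of `U` over an extension `Ω` of `L` whose field of definition `L (x)` has degree at most `r`
over `L` (`Valued`). The dimension `b` of its image is the transcendence degree of `ℂ (x)`.

`Separates U e N s` (`Pool/Agent/L5helper25/GC/PairQ.lean`) is the numerical condition: either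
`s ≤ e + 1` (`N = 0`), or `s < (N + 1) (e + 2 - N)` for a number `N` such that all equations of `U` have
degree at most `e + 2 - N`, `7 N + 4 ≤ e`, `n (N - 1) ≤ e` and `2 m + N ≤ size + 1`, where `n ≥ 2` is the
dimension of the projective space.

**Theorem.** (1) Let `W` have a rational map to `U` with at most `r` values and image of dimension
`b ≥ 1`. Then `b ≤ m`, and `h⁰ (W, Ω ^ b) ≥ q` if `2 m + 1 + e ≤ size + b` and `Separates U e N (q r)`.
(2) Let `2 m + e ≤ size` and `Separates U e N r`, and let `W` have no nonzero holomorphic tensor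
differential of any degree `b` with `1 ≤ b ≤ min (m, dim W)`, or only no nonzero holomorphic form of
these degrees. Then all rational maps from `W` to `U` with at most `r` values are constant.
(3) Let `W` be as in (2), let `V' ⇢ W` be dominant and generically finite, of any degree, and let
`V' ⇢ Y` be a fibration with rationally connected fibres, where `Y` is a variety which is generically
finite over a subvariety of `U × U × ...` given by rational maps from `W` to `U` with at most `r` values.
Then `Y` is a point and `W` is rationally connected. In particular Q1 holds for `W`.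
The same is true with unirational instead of rationally connected.

In (3) one can take `V' = W`, and for `Y` a subvariety of the symmetric power `Sym^r U` or of a Hilbert
scheme; or any dominant map `V' ⇢ W` of degree at most `r`, and for `Y` a subvariety of `U × ... × U`.

For `N = 0` the condition in (2) and (3) is `2 m + r ≤ size + 1`. The starting file `MultivaluedTensors`
proves (2) if `d a ≥ ρ` and `(ρ + 1) m + r ≤ size + ρ` for `ρ = min (r, dim W)`. Here the bound does not
depend on the dimension of `W`. For `N > 0` the number `r` of the values can be quadratic in the degrees: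
for two or more very general hypersurfaces in projective space of dimension `n = m` let
`e = ∑ (d a + 1) - 2 n`; if `max (d a) ≤ 6 e / 7` then `r` can be about `6 e ^ 2 / 49` for `n ≤ 6` and
`(n - 1) e ^ 2 / n ^ 2` for `n ≥ 7`. (For one hypersurface, `d - 1` values suffice for a dominant map from
a projective space.) In particular the gonality of all curves on `U` is at least `(N + 1) (e + 2 - N)`:
this is the case `W = ℙ¹`.

The proof: the subvariety `Z` of `U` with the generic point `x` has a canonical form whose products with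
all monomials of degree `e` are regular. The traces of the pull-backs of these forms of degree
`b = dim Z` to the variety with the function field `L (x)` are regular forms on `W`. Take `q` independent
generic points of `W`. The values of the traces at these points are combinations, with nonzero
coefficients, of the values at at most `q r` points of `Z`. If these are not linearly independent then, by
the starting library, there is a curve `C` of degree at most `N` which contains more than
`deg C (e + 2 - N)` of these points. As the equations of `U` have degree at most `e + 2 - N`, the curve is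
contained in `U`. But the canonical form of `C` whose products with the forms of degree `size - 2 m` are
regular shows that the degree of `C` is at least `size - 2 m + 2 > N`.
-/

set_option autoImplicit false
set_option linter.overlappingInstances false
set_option linter.unusedSectionVars false

open FF Module Pool.Agent.W602.GT
open Pool.Agent.N95.LQ (Pair)
open Pool.Agent.L5helper25.GC (Separates)
open Pool.Agent.W619.TW (IsUnirational)

namespace Pool.Agent.Results.MP_4329d7_ag.MultivaluedMapsAllDimensions

/-- **Multi-valued rational maps.** The point `x` of `U` with homogeneous coordinates in the extension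
`Ω` of the function field `L` of `W` is a rational map from `W` to `U` with at most `r` values: its field
of definition `L (x)`, generated by the ratios of its coordinates, has degree at most `r` over `L`. -/
structure Valued {k : Type} [Field k] [Algebra k ℂ] (U : Pair k ℂ) (L : Type) [Field L] {Ω : Type}
    [Field Ω] [Algebra ℂ Ω] [Algebra L Ω] (r : ℕ) (x : Fin (U.n + 1) → Ω) : Prop where
  point : U.Point x
  fin : FiniteDimensional L (coords L x)
  deg : finrank L (coords L x) ≤ r

/-- `h⁰ (W, Ω^b) ≥ q` for the smooth projective varieties `W` of dimension `w` with the function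
field `L`: there are `q` alternating functions of `b` rational vector fields, linearly independent over
`ℂ`, which map vector fields regular at `P` to functions regular at `P`, for all prime divisors `P`. -/
def HasForms (L : Type) [Field L] [Algebra ℂ L] (w b q : ℕ) : Prop :=
  ∃ η : Fin q → AlternatingMap L (Derivation ℂ L L) L (Fin b), LinearIndependent ℂ η ∧
    ∀ j, ∀ P : Place ℂ L, Divisorial w P → ∀ D : Fin b → Derivation ℂ L L,
      (∀ i, DerReg P (D i)) → P.Reg (η j D)

/-- `H⁰ (W, (Ω¹) ^ ⊗ b) = 0` for the smooth projective varieties `W` of dimension `w` with the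
function field `L`. -/
def NoTensors (L : Type) [Field L] [Algebra ℂ L] (w b : ℕ) : Prop :=
  ∀ T : MultilinearMap L (fun _ : Fin b => Derivation ℂ L L) L,
    (∀ P : Place ℂ L, Divisorial w P → ∀ D : Fin b → Derivation ℂ L L, (∀ j, DerReg P (D j)) →
      P.Reg (T D)) → T = 0

/-- `H⁰ (W, Ω^b) = 0`: the same for alternating functions. -/
def NoForms (L : Type) [Field L] [Algebra ℂ L] (w b : ℕ) : Prop :=
  ∀ T : AlternatingMap L (Derivation ℂ L L) L (Fin b),
    (∀ P : Place ℂ L, Divisorial w P → ∀ D : Fin b → Derivation ℂ L L, (∀ j, DerReg P (D j)) →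
      P.Reg (T D)) → T = 0

/-- The rational function `f` of one variable is defined at `a` and has the value `c` there. -/
def HasValue {Ω : Type} [Field Ω] (f : RatFunc Ω) (a c : Ω) : Prop :=
  ∃ p q : Polynomial Ω, q.eval a ≠ 0 ∧
    f * algebraMap (Polynomial Ω) (RatFunc Ω) q = algebraMap (Polynomial Ω) (RatFunc Ω) p ∧
    p.eval a = c * q.eval a

/-- The variety with the function field `L` is rationally connected: any two generic points `σ` and `τ`,
with coordinates in an algebraically closed field `Ω`, are joined by a rational curve `γ`. -/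
def RationallyConnected (L : Type) [Field L] [Algebra ℂ L] : Prop :=
  ∀ (Ω : Type) [Field Ω] [Algebra ℂ Ω] [IsAlgClosed Ω] (σ τ : L →ₐ[ℂ] Ω),
    ∃ γ : L →ₐ[ℂ] RatFunc Ω, ∀ f : L, HasValue (γ f) 0 (σ f) ∧ HasValue (γ f) 1 (τ f)

/-- The fibration `V' ⇢ Y` with `E` the function field of `V'` and `B` the one of `Y` has rationally
connected fibres: any two generic points `σ` and `τ` of `V'` in the same fibre are joined by a rational
curve `γ` in this fibre. -/
def FibresRC {E : Type} [Field E] [Algebra ℂ E] (B : IntermediateField ℂ E) : Prop :=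
  ∀ (Ω : Type) [Field Ω] [Algebra ℂ Ω] [IsAlgClosed Ω] (σ τ : E →ₐ[ℂ] Ω), (∀ b ∈ B, σ b = τ b) →
    ∃ γ : E →ₐ[ℂ] RatFunc Ω, (∀ b ∈ B, γ b = algebraMap Ω (RatFunc Ω) (σ b)) ∧
      ∀ f : E, HasValue (γ f) 0 (σ f) ∧ HasValue (γ f) 1 (τ f)

/-- The fibration has unirational fibres: the generic fibre is dominated by a projective space. -/
def FibresUnirational {E : Type} [Field E] [Algebra ℂ E] (B : IntermediateField ℂ E) : Prop :=
  ∃ s : ℕ, Nonempty (E →ₐ[B] FractionRing (MvPolynomial (Fin s) B))

theorem RationallyConnected.descend {K : Type} [Field K] [Algebra ℂ K] {L : Type} [Field L]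
    [Algebra ℂ L] [Algebra L K] [IsScalarTower ℂ L K] [Algebra.IsAlgebraic L K]
    (h : RationallyConnected K) : RationallyConnected L := by
  intro Ω _ _ _ σ τ
  have ext : ∀ ρ : L →ₐ[ℂ] Ω, ∃ ρ' : K →ₐ[ℂ] Ω, ∀ f, ρ' (algebraMap L K f) = ρ f := by
    intro ρ
    let _ : Algebra L Ω := ρ.toRingHom.toAlgebra
    have _ : IsScalarTower ℂ L Ω := IsScalarTower.of_algebraMap_eq fun c => (ρ.commutes c).symm
    let ρ' : K →ₐ[L] Ω := IsAlgClosed.lift
    exact ⟨ρ'.restrictScalars ℂ, fun f => ρ'.commutes f⟩
  obtain ⟨σ', hσ⟩ := ext σ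
  obtain ⟨τ', hτ⟩ := ext τ
  obtain ⟨γ, hγ⟩ := h Ω σ' τ'
  refine ⟨γ.comp (IsScalarTower.toAlgHom ℂ L K), fun f => ?_⟩
  have h1 := hγ (algebraMap L K f)
  rw [hσ, hτ] at h1
  exact h1

theorem FibresRC.bot {E : Type} [Field E] [Algebra ℂ E] (h : FibresRC (⊥ : IntermediateField ℂ E)) :
    RationallyConnected E := by
  intro Ω _ _ _ σ τ
  obtain ⟨γ, -, h2⟩ := h Ω σ τ (by
    intro b hb
    obtain ⟨c, rfl⟩ := IntermediateField.mem_bot.1 hb
    rw [AlgHom.commutes, AlgHom.commutes])
  exact ⟨γ, h2⟩

/-- an algebraic extension of `ℂ` is `ℂ` -/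
theorem eq_bot {E : Type} [Field E] [Algebra ℂ E] (B : IntermediateField ℂ E)
    (h : ∀ b ∈ B, IsAlgebraic ℂ b) : B = ⊥ := by
  rw [eq_bot_iff]
  intro b hb
  rw [IntermediateField.mem_bot]
  have h1 : (minpoly ℂ b).degree = 1 :=
    IsAlgClosed.degree_eq_one_of_irreducible ℂ (minpoly.irreducible (h b hb).isIntegral)
  exact minpoly.mem_range_of_degree_eq_one ℂ b h1

theorem unirational_bot {E L : Type} [Field E] [Algebra ℂ E] [Field L] [Algebra ℂ L] [Algebra L E]
    [IsScalarTower ℂ L E] {s : ℕ} (φ : E →ₐ[(⊥ : IntermediateField ℂ E)]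
      FractionRing (MvPolynomial (Fin s) (⊥ : IntermediateField ℂ E))) : IsUnirational ℂ L s := by
  let e : (⊥ : IntermediateField ℂ E) ≃ₐ[ℂ] ℂ := IntermediateField.botEquiv ℂ E
  let e1 : MvPolynomial (Fin s) (⊥ : IntermediateField ℂ E) ≃+* MvPolynomial (Fin s) ℂ :=
    MvPolynomial.mapEquiv (Fin s) e.toRingEquiv
  let e2 : FractionRing (MvPolynomial (Fin s) (⊥ : IntermediateField ℂ E)) ≃+*
      FractionRing (MvPolynomial (Fin s) ℂ) := IsFractionRing.ringEquivOfRingEquiv e1
  refine ⟨{ toRingHom := (e2.toRingHom.comp φ.toRingHom).comp (algebraMap L E), commutes' := ?_ }⟩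
  intro c
  change e2 (φ (algebraMap L E (algebraMap ℂ L c))) = algebraMap ℂ _ c
  rw [← IsScalarTower.algebraMap_apply ℂ L E,
    IsScalarTower.algebraMap_apply ℂ (⊥ : IntermediateField ℂ E) E, AlgHom.commutes,
    IsScalarTower.algebraMap_apply (⊥ : IntermediateField ℂ E)
      (MvPolynomial (Fin s) (⊥ : IntermediateField ℂ E)), MvPolynomial.algebraMap_eq]
  change IsFractionRing.ringEquivOfRingEquiv e1 _ = _
  rw [IsFractionRing.ringEquivOfRingEquiv_algebraMap]
  rw [IsScalarTower.algebraMap_apply ℂ (MvPolynomial (Fin s) ℂ)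
    (FractionRing (MvPolynomial (Fin s) ℂ)), MvPolynomial.algebraMap_eq]
  congr 1
  change MvPolynomial.map _ (MvPolynomial.C _) = _
  rw [MvPolynomial.map_C]
  congr 1
  exact IntermediateField.botEquiv_def c

/-- **Multi-valued maps to very general complete intersections.** Let `L` be the function field of the
variety `W` of dimension `w`, and `U` as above. (1) If `x` is a rational map from `W` to `U` with at most
`r` values and image of dimension `b ≥ 1`, `2 m + 1 + e ≤ size + b` and `Separates U e N (q r)`, then
`h⁰ (W, Ω^b) ≥ q`. Now let `2 m + e ≤ size`, `Separates U e N r`, and let `W` have no tensor differentials,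
or no forms, of the degrees `1, ..., min (m, w)`. (2) All rational maps from `W` to `U` with at most `r`
values are constant. (3) Let `E` be the function field of a variety `V'`, generically finite over `W`, and
`B` the one of the base `Y` of a fibration of `V'`, algebraic over the compositum of the fields `ℂ (x i)`
of rational maps `x i` from `W` to `U` with at most `r` values. If the fibres are rationally connected
(unirational) then `Y` is a point and `W` is rationally connected (unirational). -/
theorem result {k : Type} [Field k] [Algebra k ℂ] (U : Pair k ℂ) (hU : ∀ a, a ∈ U.C)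
    (L : Type) [Field L] [Algebra ℂ L] [Algebra.EssFiniteType ℂ L] (w : ℕ)
    (hL : Algebra.trdeg ℂ L = w) (r : ℕ) :
    -- (1) many forms
    (∀ (Ω : Type) [Field Ω] [Algebra ℂ Ω] [Algebra L Ω] [IsScalarTower ℂ L Ω]
      (x : Fin (U.n + 1) → Ω), Valued U L r x → ∀ b : ℕ, Algebra.trdeg ℂ (coords ℂ x) = b → 1 ≤ b →
      b ≤ U.m ∧ ∀ q e N : ℕ, 2 * U.m + 1 + e ≤ U.size + b → Separates U e N (q * r) →
        HasForms L w b q) ∧
    ∀ e N : ℕ, 2 * U.m + e ≤ U.size → Separates U e N r →
      ((∀ b, 1 ≤ b → b ≤ U.m → b ≤ w → NoTensors L w b) ∨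
        ∀ b, 1 ≤ b → b ≤ U.m → b ≤ w → NoForms L w b) →
      -- (2) multi-valued maps are constant
      (∀ (Ω : Type) [Field Ω] [Algebra ℂ Ω] [Algebra L Ω] [IsScalarTower ℂ L Ω]
        (x : Fin (U.n + 1) → Ω), Valued U L r x → coords ℂ x = ⊥) ∧
      -- (3) rational connectedness
      ∀ (E Ω : Type) [Field E] [Algebra ℂ E] [Algebra L E] [IsScalarTower ℂ L E]
        [FiniteDimensional L E] [Field Ω] [Algebra ℂ Ω] [Algebra L Ω] [IsScalarTower ℂ L Ω]
        [Algebra E Ω] [IsScalarTower ℂ E Ω] (B : IntermediateField ℂ E) (ι : Type)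
        (x : ι → Fin (U.n + 1) → Ω), (∀ i, Valued U L r (x i)) →
        (∀ c ∈ B, IsAlgebraic (⨆ i, coords ℂ (x i) : IntermediateField ℂ Ω) (algebraMap E Ω c)) →
        (FibresRC B → B = ⊥ ∧ RationallyConnected L) ∧
        (FibresUnirational B → B = ⊥ ∧ ∃ s, IsUnirational ℂ L s) := by
  have h0 : ∀ (Ω : Type) [Field Ω] [Algebra ℂ Ω] [Algebra L Ω] [IsScalarTower ℂ L Ω]
      (x : Fin (U.n + 1) → Ω), Valued U L r x → ∀ b : ℕ, Algebra.trdeg ℂ (coords ℂ x) = b →
      b ≤ U.m ∧ b ≤ w := fun Ω _ _ _ _ x hx b hb =>
    ⟨(L5helper25.GC.valued_forms U hU hL hx.point hx.fin hx.deg hb).1,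
      (L5helper25.GC.valued_forms U hU hL hx.point hx.fin hx.deg hb).2.1⟩
  have h1 : ∀ (Ω : Type) [Field Ω] [Algebra ℂ Ω] [Algebra L Ω] [IsScalarTower ℂ L Ω]
      (x : Fin (U.n + 1) → Ω), Valued U L r x → ∀ b : ℕ, Algebra.trdeg ℂ (coords ℂ x) = b →
      1 ≤ b → ∀ q e N : ℕ, 2 * U.m + 1 + e ≤ U.size + b → Separates U e N (q * r) →
        HasForms L w b q := fun Ω _ _ _ _ x hx b hb hb1 q e N he hs =>
    L5helper25.GC.valued_formsQ U hU hL hx.point hx.fin hx.deg hb hb1 he hs
  refine ⟨fun Ω _ _ _ _ x hx b hb hb1 => ⟨(h0 Ω x hx b hb).1, h1 Ω x hx b hb hb1⟩,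
    fun e N hd hsep hno' => ?_⟩
  have hno : ∀ b, 1 ≤ b → b ≤ U.m → b ≤ w → NoForms L w b := by
    rcases hno' with h | h
    · intro b h2 h3 h4 T hT
      have h5 := h b h2 h3 h4 T.toMultilinearMap hT
      ext D
      exact DFunLike.congr_fun h5 D
    · exact h
  have h2 : ∀ (Ω : Type) [Field Ω] [Algebra ℂ Ω] [Algebra L Ω] [IsScalarTower ℂ L Ω]
      (x : Fin (U.n + 1) → Ω), Valued U L r x → coords ℂ x = ⊥ := by
    intro Ω _ _ _ _ x hx
    obtain ⟨b, hb⟩ : ∃ b : ℕ, Algebra.trdeg ℂ (coords ℂ x) = b := by
      have h3 : Algebra.trdeg ℂ (coords ℂ x) ≤ w := L5helper25.GC.trdeg_coords_le hL x hx.fin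
      exact Cardinal.lt_aleph0.1 (h3.trans_lt (Cardinal.natCast_lt_aleph0))
    obtain ⟨h3, h4⟩ := h0 Ω x hx b hb
    rcases Nat.eq_zero_or_pos b with rfl | hb1
    · apply eq_bot
      intro c hc
      have h6 : Algebra.IsAlgebraic ℂ (coords ℂ x) :=
        trdeg_eq_zero_iff.1 (by rw [hb]; rfl)
      exact (isAlgebraic_algebraMap_iff (algebraMap (coords ℂ x) Ω).injective).2
        (h6.isAlgebraic ⟨c, hc⟩)
    · exfalso
      obtain ⟨η, h6, h7⟩ := h1 Ω x hx b hb hb1 1 e N (by omega) (by rwa [one_mul])
      exact h6.ne_zero 0 (hno b hb1 h3 h4 (η 0) (h7 0))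
  refine ⟨h2, fun E Ω _ _ _ _ _ _ _ _ _ _ _ B ι x hx hB => ?_⟩
  have hB' : B = ⊥ := by
    apply eq_bot
    intro c hc
    have h3 := hB c hc
    have h4 : (⨆ i, coords ℂ (x i) : IntermediateField ℂ Ω) = ⊥ := by
      rw [iSup_eq_bot]
      exact fun i => h2 Ω (x i) (hx i)
    rw [h4] at h3
    exact (isAlgebraic_algebraMap_iff (algebraMap E Ω).injective).1 (h3.restrictScalars ℂ)
  subst hB'
  refine ⟨fun h => ⟨rfl, h.bot.descend⟩, fun h => ⟨rfl, ?_⟩⟩
  obtain ⟨s, ⟨φ⟩⟩ := h
  exact ⟨s, unirational_bot φ⟩

end Pool.Agent.Results.MP_4329d7_ag.MultivaluedMapsAllDimensions
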